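import Pool.Agent.helper11.TX.Spec3

/-!
# Project TX, part 3: row POS
-/

set_option autoImplicit false

namespace Pool.Agent.helper11.TX

open Finset Pool.Agent.helper85.FC

lemma POS_lam (c : ℤ) (hc : (2 : ℤ) ∣ c) : Lam 6 1 1 c ≤ 1 / 3 := by
  unfold Lam
  have hpf : (6 : ℕ).primeFactors = {2, 3} := by
    rw [show (6 : ℕ) = 2 * 3 by norm_num, Nat.primeFactors_mul (by norm_num) (by norm_num),
      Nat.prime_two.primeFactors, Nat.prime_three.primeFactors]
    rfl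
  rw [hpf, prod_insert (by decide), prod_singleton]
  have e : ((1 : ℕ) : ℤ) * ((1 : ℕ) : ℤ) * c = c := by push_cast; ring
  simp only [e]
  have h2 : ((2 : ℕ) : ℤ) ∣ c := by exact_mod_cast hc
  rw [if_pos h2]
  split_ifs <;> norm_num

open Classical in
lemma POS_GG (M : ℕ) (u : ℤ) : GG 6 {1} (fun _ => 1) M u =
    ∑ c ∈ Ioc u (u + M) with TrueCase 1 1 c, Lam 6 1 1 c := by
  unfold GG Tw
  rw [sum_singleton, sum_singleton]
  have e1 : Nat.gcd 1 1 = 1 := rfl
  have e2 : (1 / 1 : ℕ) = 1 := rfl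
  rw [e1, e2]
  simp only [Nat.cast_one, one_mul, mul_one, div_one]

open Classical in
theorem POS (h : NUS_stmt) : POS_stmt := by
  intro hN ε hε
  obtain ⟨M₀, hM₀⟩ := hN 6 (by norm_num) dvd_rfl {1} (fun _ => 1)
    (fun s hs => by rw [mem_singleton.1 hs]; exact ⟨one_pos, zero_le_one⟩) ε hε
  refine ⟨M₀, fun M hM u => ?_⟩
  have h1 := hM₀ M hM u
  have hyy : yy 6 1 = 1 := by unfold yy; simp
  rw [POS_GG, sum_singleton, hyy, one_mul, mul_one, h.1] at h1
  have h2 : ∑ c ∈ Ioc u (u + M) with TrueCase 1 1 c, Lam 6 1 1 c ≤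
      1 / 3 * (#{c ∈ Ioc u (u + M) | TrueCase 1 1 c} : ℝ) := by
    calc ∑ c ∈ Ioc u (u + M) with TrueCase 1 1 c, Lam 6 1 1 c
        ≤ ∑ c ∈ Ioc u (u + M) with TrueCase 1 1 c, (1 / 3 : ℝ) := by
          refine sum_le_sum fun c hc => POS_lam c ?_
          have ht : TrueCase 1 1 c := (mem_filter.1 hc).2
          have h3 := ht.2.2.2.2.2.2.1
          by_contra h4
          exact h3 ⟨odd_one, odd_one, Int.not_even_iff_odd.1 fun h5 => h4 (even_iff_two_dvd.1 h5)⟩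
      _ = 1 / 3 * (#{c ∈ Ioc u (u + M) | TrueCase 1 1 c} : ℝ) := by
          rw [sum_const, nsmul_eq_mul, mul_comm]
  have h3 := h1.trans h2
  have h5 : (0 : ℝ) ≤ (M : ℝ) := Nat.cast_nonneg _
  nlinarith [h3, h5, mul_nonneg hε.le h5]

end Pool.Agent.helper11.TX
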