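import Pool.Agent.helper11.TX.Spec2
import Pool.Agent.helper42.TX.PU

set_option autoImplicit false

namespace Pool.Agent.helper11.TX

open Finset Pool.Agent.helper85.FC

/-- a good pair of vertices gives a true case -/
theorem PG_tc (W : ℕ) (hW : 2 ∣ W) (v w : ℕ × ℤ) (hv : Vx W v) (hw : Vx W w) (hne : v ≠ w)
    (hR : Rl v w) (g a b : ℕ) (h1 : v.1 = g * b) (h2 : w.1 = g * a) (hab : Nat.Coprime a b) :
    TrueCase a b ((b : ℤ) * w.2 - (a : ℤ) * v.2) := by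
  obtain ⟨α, x⟩ := v
  obtain ⟨α', y⟩ := w
  obtain ⟨hα, hαx, hxW⟩ := hv
  obtain ⟨hα', hα'y, hyW⟩ := hw
  simp only at h1 h2 hα hαx hxW hα' hα'y hyW ⊢
  have hg : 0 < g := Nat.pos_of_ne_zero fun h => by rw [h1, h, zero_mul] at hα; exact lt_irrefl _ hα
  have hb : 0 < b := Nat.pos_of_ne_zero fun h => by rw [h1, h, mul_zero] at hα; exact lt_irrefl _ hα
  have ha : 0 < a := Nat.pos_of_ne_zero fun h => by rw [h2, h, mul_zero] at hα'; exact lt_irrefl _ hα'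
  have habZ : IsCoprime (a : ℤ) (b : ℤ) := Nat.isCoprime_iff_coprime.mpr hab
  have hbx : IsCoprime (b : ℤ) x := by
    refine hαx.of_isCoprime_of_dvd_left ?_
    rw [h1]; push_cast; exact Dvd.intro_left _ rfl
  have hay : IsCoprime (a : ℤ) y := by
    refine hα'y.of_isCoprime_of_dvd_left ?_
    rw [h2]; push_cast; exact Dvd.intro_left _ rfl
  have h2W : (2 : ℤ) ∣ (W : ℤ) := by
    exact_mod_cast hW
  have odd_of : ∀ z : ℤ, IsCoprime z (W : ℤ) → Odd z := by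
    intro z hz
    have h := hz.of_isCoprime_of_dvd_right h2W
    rw [← Int.not_even_iff_odd]
    intro he
    have h3 : IsCoprime (2 : ℤ) 2 := h.of_isCoprime_of_dvd_left he.two_dvd
    have h4 : IsUnit (2 : ℤ) := isCoprime_self.mp h3
    rw [Int.isUnit_iff] at h4
    omega
  have hxo := odd_of x hxW
  have hyo := odd_of y hyW
  refine ⟨ha, hb, ?_, hab, ?_, ?_, ?_, ?_⟩
  · intro hc
    have hc' : (b : ℤ) * y = a * x := by linarith
    have hbd : (b : ℤ) ∣ x := habZ.symm.dvd_of_dvd_mul_left (hc' ▸ Dvd.intro _ rfl)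
    have had : (a : ℤ) ∣ y := habZ.dvd_of_dvd_mul_left (hc'.symm ▸ Dvd.intro _ rfl)
    have hbu : IsUnit (b : ℤ) := hbx.isUnit_of_dvd' dvd_rfl hbd
    have hau : IsUnit (a : ℤ) := hay.isUnit_of_dvd' dvd_rfl had
    rw [Int.isUnit_iff] at hbu hau
    have hb1 : b = 1 := by omega
    have ha1 : a = 1 := by omega
    apply hne
    rw [h1, h2, ha1, hb1]
    rw [ha1, hb1] at hc'
    have : y = x := by simpa using hc'
    rw [this]
  · have h : IsCoprime (a : ℤ) ((b : ℤ) * y) := habZ.mul_right hay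
    have e : (b : ℤ) * y - a * x = (b : ℤ) * y + a * (-x) := by ring
    rw [e]
    exact h.add_mul_left_right (-x)
  · have h : IsCoprime (b : ℤ) (-((a : ℤ) * x)) := (habZ.symm.mul_right hbx).neg_right
    have e : (b : ℤ) * y - a * x = -((a : ℤ) * x) + b * y := by ring
    rw [e]
    exact h.add_mul_left_right y
  · rintro ⟨hao, hbo, hco⟩
    have hao' : Odd (a : ℤ) := by exact_mod_cast hao
    have hbo' : Odd (b : ℤ) := by exact_mod_cast hbo
    have he : Even ((b : ℤ) * y - a * x) := (hbo'.mul hyo).sub_odd (hao'.mul hxo)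
    exact (Int.not_even_iff_odd.mpr hco) he
  · have hR' : {n : ℕ | ((α : ℤ) * n - x).toNat.Prime ∧ ((α' : ℤ) * n - y).toNat.Prime}.Infinite := hR
    have hinj : Set.InjOn (fun n : ℕ => (((α : ℤ) * n - x).toNat, ((α' : ℤ) * n - y).toNat))
        {n : ℕ | ((α : ℤ) * n - x).toNat.Prime ∧ ((α' : ℤ) * n - y).toNat.Prime} := by
      intro n hn m hm hnm
      simp only [Prod.mk.injEq] at hnm
      have hn0 := hn.1.pos
      have hm0 := hm.1.pos
      have h3 : (α : ℤ) * n - x = (α : ℤ) * m - x := by omega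
      have h4 : (α : ℤ) * n = (α : ℤ) * m := by linarith
      have h5 : (n : ℤ) = m := mul_left_cancel₀ (by exact_mod_cast hα.ne') h4
      exact_mod_cast h5
    refine (hR'.image hinj).mono ?_
    rintro _ ⟨n, hn, rfl⟩
    refine ⟨hn.1, hn.2, ?_⟩
    have hn0 := hn.1.pos
    have hn1 := hn.2.pos
    have e1 : ((((α : ℤ) * n - x).toNat : ℕ) : ℤ) = (α : ℤ) * n - x := Int.toNat_of_nonneg (by omega)
    have e2 : ((((α' : ℤ) * n - y).toNat : ℕ) : ℤ) = (α' : ℤ) * n - y := Int.toNat_of_nonneg (by omega)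
    simp only
    rw [e1, e2, h1, h2]
    push_cast
    ring

open Classical in
/-- Row PG. -/
theorem PG (h : CN_stmt) : PG_stmt := by
  intro W hW hW2 S hh hS δ hδ
  have hWr : (0 : ℝ) < W := by exact_mod_cast hW
  -- a bound for the elements of `S`
  obtain ⟨N, hN, hSN⟩ : ∃ N : ℕ, 0 < N ∧ ∀ s ∈ S, s ≤ N := by
    refine ⟨S.sup id + 1, by omega, fun s hs => ?_⟩
    have := Finset.le_sup (f := id) hs
    simp only [id] at this
    omega
  have hNr : (0 : ℝ) < N := by exact_mod_cast hN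
  set H : ℝ := ∑ s ∈ S, hh s with hH
  have hH0 : 0 ≤ H := Finset.sum_nonneg fun s hs => (hS s hs).2
  obtain ⟨M₁₀, hM₁₀⟩ := exists_nat_ge (2 * W * N / δ)
  refine ⟨M₁₀, fun M₁ hM₁ u₁ => ?_⟩
  set R : ℕ := u₁.natAbs + M₁ with hR
  obtain ⟨M₂₀, hM₂₀⟩ := exists_nat_ge (H * H * (2 * (N * R)) / δ)
  refine ⟨M₂₀, fun M₂ hM₂ u₂ => ?_⟩
  -- notation
  let ga : ℕ → ℕ → ℕ := fun α α' => α' / Nat.gcd α α'
  let gb : ℕ → ℕ → ℕ := fun α α' => α / Nat.gcd α α'
  let cc : ℕ → ℕ → ℤ → ℤ → ℤ := fun α α' x y => (gb α α' : ℤ) * y - (ga α α' : ℤ) * x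
  let win : ℕ → Finset ℤ := fun b => Ioc ((b : ℤ) * u₂) ((b : ℤ) * (u₂ + M₂))
  have hga : ∀ α α' : ℕ, 0 < α → 0 < α' → 0 < Nat.gcd α α' ∧ α = Nat.gcd α α' * gb α α' ∧
      α' = Nat.gcd α α' * ga α α' ∧ Nat.Coprime (ga α α') (gb α α') ∧ 0 < ga α α' ∧ 0 < gb α α' ∧
      ga α α' ≤ α' ∧ gb α α' ≤ α := by
    intro α α' hα hα'
    have hg : 0 < Nat.gcd α α' := Nat.gcd_pos_of_pos_left _ hα
    refine ⟨hg, (Nat.mul_div_cancel' (Nat.gcd_dvd_left _ _)).symm,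
      (Nat.mul_div_cancel' (Nat.gcd_dvd_right _ _)).symm, (Nat.coprime_div_gcd_div_gcd hg).symm, ?_, ?_,
      Nat.div_le_self _ _, Nat.div_le_self _ _⟩
    · exact Nat.div_pos (Nat.le_of_dvd hα' (Nat.gcd_dvd_right _ _)) hg
    · exact Nat.div_pos (Nat.le_of_dvd hα (Nat.gcd_dvd_left _ _)) hg
  -- the pointwise bound
  let A : ℕ × ℤ → ℕ × ℤ → ℝ := fun v w =>
    if (IsCoprime v.2 (W : ℤ) ∧ IsCoprime w.2 (W : ℤ)) ∧
      TrueCase (ga v.1 w.1) (gb v.1 w.1) (cc v.1 w.1 v.2 w.2) ∧ cc v.1 w.1 v.2 w.2 ∈ win (gb v.1 w.1)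
    then hh v.1 * hh w.1 else 0
  let B : ℕ × ℤ → ℕ × ℤ → ℝ := fun v w =>
    if ¬ cc v.1 w.1 v.2 w.2 ∈ win (gb v.1 w.1) then hh v.1 * hh w.1 else 0
  have hA0 : ∀ v w, v.1 ∈ S → w.1 ∈ S → 0 ≤ A v w := fun v w hv hw => by
    have h1 := (hS _ hv).2
    have h2 := (hS _ hw).2
    simp only [A]
    split_ifs <;> positivity
  have hB0 : ∀ v w, v.1 ∈ S → w.1 ∈ S → 0 ≤ B v w := fun v w hv hw => by
    have h1 := (hS _ hv).2
    have h2 := (hS _ hw).2
    simp only [B]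
    split_ifs <;> positivity
  have hsubX : ∀ (M : ℕ) (u : ℤ), XS W S M u ⊆ S ×ˢ (Ioc u (u + M)) := fun M u =>
    filter_subset _ _
  have hpt : ∀ v ∈ XS W S M₁ u₁, ∀ w ∈ XS W S M₂ u₂,
      (if v ≠ w ∧ Rl v w then hh v.1 * hh w.1 else 0) ≤ A v w + B v w := by
    intro v hv w hw
    have hvS : v.1 ∈ S := (mem_product.1 (hsubX _ _ hv)).1
    have hwS : w.1 ∈ S := (mem_product.1 (hsubX _ _ hw)).1
    split_ifs with hc
    · have hv' := (mem_filter.mp hv).2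
      have hw' := (mem_filter.mp hw).2
      obtain ⟨hg, e1, e2, hco, ha, hb, _⟩ := hga v.1 w.1 hv'.1 hw'.1
      have hT : TrueCase (ga v.1 w.1) (gb v.1 w.1) (cc v.1 w.1 v.2 w.2) :=
        PG_tc W hW2 v w hv' hw' hc.1 hc.2 _ _ _ e1 e2 hco
      by_cases hwin : cc v.1 w.1 v.2 w.2 ∈ win (gb v.1 w.1)
      · have hAe : A v w = hh v.1 * hh w.1 := by
          simp only [A]
          rw [if_pos ⟨⟨hv'.2.2, hw'.2.2⟩, hT, hwin⟩]
        rw [hAe]
        linarith [hB0 v w hvS hwS]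
      · have hBe : B v w = hh v.1 * hh w.1 := by
          simp only [B]
          rw [if_pos hwin]
        rw [hBe]
        linarith [hA0 v w hvS hwS]
    · exact add_nonneg (hA0 v w hvS hwS) (hB0 v w hvS hwS)
  have hstep1 : (∑ v ∈ XS W S M₁ u₁, ∑ w ∈ XS W S M₂ u₂,
      if v ≠ w ∧ Rl v w then hh v.1 * hh w.1 else 0) ≤
      (∑ v ∈ S ×ˢ (Ioc u₁ (u₁ + M₁)), ∑ w ∈ S ×ˢ (Ioc u₂ (u₂ + M₂)), A v w) +
      ∑ v ∈ S ×ˢ (Ioc u₁ (u₁ + M₁)), ∑ w ∈ S ×ˢ (Ioc u₂ (u₂ + M₂)), B v w := by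
    calc _ ≤ ∑ v ∈ XS W S M₁ u₁, ∑ w ∈ XS W S M₂ u₂, (A v w + B v w) :=
          Finset.sum_le_sum fun v hv => Finset.sum_le_sum fun w hw => hpt v hv w hw
      _ ≤ ∑ v ∈ XS W S M₁ u₁, ∑ w ∈ S ×ˢ (Ioc u₂ (u₂ + M₂)), (A v w + B v w) :=
          Finset.sum_le_sum fun v hv => Finset.sum_le_sum_of_subset_of_nonneg (hsubX _ _)
            fun w hw _ => add_nonneg
              (hA0 v w (mem_product.1 (hsubX _ _ hv)).1 (mem_product.1 hw).1)
              (hB0 v w (mem_product.1 (hsubX _ _ hv)).1 (mem_product.1 hw).1)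
      _ ≤ ∑ v ∈ S ×ˢ (Ioc u₁ (u₁ + M₁)), ∑ w ∈ S ×ˢ (Ioc u₂ (u₂ + M₂)),
            (A v w + B v w) :=
          Finset.sum_le_sum_of_subset_of_nonneg (hsubX _ _) fun v hv _ =>
            Finset.sum_nonneg fun w hw => add_nonneg
              (hA0 v w (mem_product.1 hv).1 (mem_product.1 hw).1)
              (hB0 v w (mem_product.1 hv).1 (mem_product.1 hw).1)
      _ = _ := by
          rw [← Finset.sum_add_distrib]
          exact Finset.sum_congr rfl fun v _ => Finset.sum_add_distrib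
  -- part (B)
  have hBsum : (∑ v ∈ S ×ˢ (Ioc u₁ (u₁ + M₁)), ∑ w ∈ S ×ˢ (Ioc u₂ (u₂ + M₂)), B v w) ≤
      δ * M₁ * M₂ := by
    have hone : ∀ v ∈ S ×ˢ (Ioc u₁ (u₁ + M₁)),
        ∑ w ∈ S ×ˢ (Ioc u₂ (u₂ + M₂)), B v w ≤ hh v.1 * (H * (2 * (N * R))) := by
      intro v hv
      rw [mem_product, mem_Ioc] at hv
      rw [Finset.sum_product]
      have hv0 := hS v.1 hv.1
      have hin : ∀ α' ∈ S, ∑ y ∈ Ioc u₂ (u₂ + M₂), B v (α', y) ≤
          hh v.1 * (hh α' * (2 * (N * R) : ℝ)) := by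
        intro α' hα'
        have h3 := hS α' hα'
        have e3 : ∀ y, B v (α', y) = hh v.1 * hh α' *
            (if ¬ cc v.1 α' v.2 y ∈ win (gb v.1 α') then (1 : ℝ) else 0) := by
          intro y
          simp only [B]
          split_ifs <;> simp
        rw [Finset.sum_congr rfl fun y _ => e3 y, ← Finset.mul_sum, Finset.sum_boole]
        obtain ⟨_, _, _, _, _, hb, hle, _⟩ := hga v.1 α' hv0.1 h3.1
        have hxR : |v.2| ≤ (R : ℤ) := by
          rw [hR, abs_le]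
          push_cast
          have := neg_abs_le u₁
          have := le_abs_self u₁
          constructor <;> omega
        have := PU_B (ga v.1 α') (gb v.1 α') N R v.2 u₂ M₂ hb (hle.trans (hSN _ hα')) hxR
        rw [mul_assoc]
        refine mul_le_mul_of_nonneg_left (mul_le_mul_of_nonneg_left ?_ h3.2) hv0.2
        exact_mod_cast this
      calc _ ≤ ∑ α' ∈ S, hh v.1 * (hh α' * (2 * (N * R) : ℝ)) := Finset.sum_le_sum hin
        _ = hh v.1 * (H * (2 * (N * R))) := by rw [← Finset.mul_sum, ← Finset.sum_mul]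
    calc _ ≤ ∑ v ∈ S ×ˢ (Ioc u₁ (u₁ + M₁)), hh v.1 * (H * (2 * (N * R))) := Finset.sum_le_sum hone
      _ = (H * M₁) * (H * (2 * (N * R))) := by
          rw [← Finset.sum_mul, Finset.sum_product]
          congr 1
          simp only [Finset.sum_const, Int.card_Ioc, add_sub_cancel_left, Int.toNat_natCast,
            nsmul_eq_mul]
          rw [← Finset.mul_sum]
          ring
      _ = (H * H * (2 * (N * R))) * M₁ := by ring
      _ ≤ (δ * M₂) * M₁ := by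
          refine mul_le_mul_of_nonneg_right ?_ (by positivity)
          have h3 : H * H * (2 * (N * R)) / δ ≤ M₂ := hM₂₀.trans (by exact_mod_cast hM₂)
          rw [div_le_iff₀ hδ] at h3
          linarith
      _ = δ * M₁ * M₂ := by ring
  -- part (A)
  let T : ℕ → ℕ → ℝ := fun a b =>
    (#{p ∈ Ioc u₁ (u₁ + M₁) ×ˢ Ioc u₂ (u₂ + M₂) | (IsCoprime p.1 (W : ℤ) ∧ IsCoprime p.2 (W : ℤ)) ∧
      TrueCase a b ((b : ℤ) * p.2 - a * p.1) ∧
      (b : ℤ) * p.2 - a * p.1 ∈ Ioc ((b : ℤ) * u₂) ((b : ℤ) * (u₂ + M₂))} : ℝ)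
  have hAT : (∑ v ∈ S ×ˢ (Ioc u₁ (u₁ + M₁)), ∑ w ∈ S ×ˢ (Ioc u₂ (u₂ + M₂)), A v w) =
      ∑ α ∈ S, ∑ α' ∈ S, hh α * hh α' * T (ga α α') (gb α α') := by
    rw [Finset.sum_product]
    refine Finset.sum_congr rfl fun α _ => ?_
    rw [Finset.sum_congr rfl fun x _ => Finset.sum_product S (Ioc u₂ (u₂ + M₂)) (A (α, x)),
      Finset.sum_comm]
    refine Finset.sum_congr rfl fun α' _ => ?_
    have e2 : ∀ x ∈ Ioc u₁ (u₁ + M₁), ∀ y ∈ Ioc u₂ (u₂ + M₂), A (α, x) (α', y) =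
        hh α * hh α' * (if (IsCoprime x (W : ℤ) ∧ IsCoprime y (W : ℤ)) ∧
          TrueCase (ga α α') (gb α α') ((gb α α' : ℤ) * y - (ga α α' : ℤ) * x) ∧
          (gb α α' : ℤ) * y - (ga α α' : ℤ) * x ∈
            Ioc ((gb α α' : ℤ) * u₂) ((gb α α' : ℤ) * (u₂ + M₂)) then (1 : ℝ) else 0) := by
      intro x _ y _
      simp only [A, cc, win]
      split_ifs <;> simp
    rw [Finset.sum_congr rfl fun x hx => Finset.sum_congr rfl fun y hy => e2 x hx y hy]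
    simp_rw [← Finset.mul_sum]
    congr 1
    simp only [T]
    rw [← Finset.sum_boole, Finset.sum_product]
  have hS0 : ∀ a b, 0 ≤ Tw TrueCase (Lam W) a b M₂ u₂ := fun a b =>
    Finset.sum_nonneg fun c _ => PU_Lam_nonneg W a b c
  have hfix : ∀ s ∈ S, ∀ t ∈ S, hh s * hh t * T (ga s t) (gb s t) ≤
      (1 + δ) * M₁ * (hh s * hh t / ((s / Nat.gcd s t : ℕ) : ℝ) *
        Tw TrueCase (Lam W) (t / Nat.gcd s t) (s / Nat.gcd s t) M₂ u₂) := by
    intro s hs t ht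
    obtain ⟨hs0, hs1⟩ := hS s hs
    obtain ⟨ht0, ht1⟩ := hS t ht
    obtain ⟨_, _, _, hco, ha0, hb0, _, hbs⟩ := hga s t hs0 ht0
    have hbr : (0 : ℝ) < gb s t := by exact_mod_cast hb0
    have hbN : (gb s t : ℝ) ≤ N := by exact_mod_cast hbs.trans (hSN s hs)
    have hTle : T (ga s t) (gb s t) ≤ ((M₁ : ℝ) / gb s t + 2 * W) *
        Tw TrueCase (Lam W) (ga s t) (gb s t) M₂ u₂ := by
      have := PU_T h W (ga s t) (gb s t) hW ha0 hb0 hco u₁ u₂ M₁ M₂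
      simp only [T, Tw]
      rw [Finset.mul_sum]
      exact this
    have hM : (M₁ : ℝ) / gb s t + 2 * W ≤ (1 + δ) * M₁ / gb s t := by
      have h3 : 2 * (W : ℝ) * N / δ ≤ M₁ := hM₁₀.trans (by exact_mod_cast hM₁)
      rw [div_le_iff₀ hδ] at h3
      have h4 : 2 * (W : ℝ) * gb s t ≤ M₁ * δ := by
        have : 2 * (W : ℝ) * gb s t ≤ 2 * W * N := mul_le_mul_of_nonneg_left hbN (by positivity)
        linarith
      have h5 : 2 * (W : ℝ) ≤ M₁ * δ / gb s t := by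
        rw [le_div_iff₀ hbr]; exact h4
      have e : (1 + δ) * (M₁ : ℝ) / gb s t = M₁ / gb s t + M₁ * δ / gb s t := by ring
      rw [e]; linarith
    have hw0 : (0 : ℝ) ≤ hh s * hh t := mul_nonneg hs1 ht1
    calc _ ≤ hh s * hh t * (((1 + δ) * M₁ / gb s t) * Tw TrueCase (Lam W) (ga s t) (gb s t) M₂ u₂) :=
          mul_le_mul_of_nonneg_left
            (hTle.trans (mul_le_mul_of_nonneg_right hM (hS0 _ _))) hw0
      _ = (1 + δ) * M₁ * (hh s * hh t / (gb s t : ℝ) *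
            Tw TrueCase (Lam W) (ga s t) (gb s t) M₂ u₂) := by ring
  have hAsum : (∑ v ∈ S ×ˢ (Ioc u₁ (u₁ + M₁)), ∑ w ∈ S ×ˢ (Ioc u₂ (u₂ + M₂)), A v w) ≤
      (1 + δ) * M₁ * GG W S hh M₂ u₂ := by
    rw [hAT]
    unfold GG
    rw [Finset.mul_sum]
    refine Finset.sum_le_sum fun s hs => ?_
    rw [Finset.mul_sum]
    exact Finset.sum_le_sum fun t ht => hfix s hs t ht
  linarith

end Pool.Agent.helper11.TX
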